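import Mathlib
import Pool.Agent.W866.SS.Main

set_option autoImplicit false

namespace Pool.Agent.Results.MP_841ff5_lc.MartinReal

open Cardinal Pool.Agent.W684 Pool.Agent.W866.SS

/-- Martin's axiom for `ℵ₁` dense sets implies that there is an uncountable strongly surjective set
of reals. Moreover it implies that every set `A` of at most `ℵ₁` reals is order isomorphic to a
subset of a strongly surjective set of reals of cardinality `ℵ₁`. -/
theorem result (hMA : MartinAxiomAleph1) :
    (∃ X : Set ℝ, ¬ X.Countable ∧ StronglySurjective X) ∧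
    ∀ A : Set ℝ, #A ≤ ℵ₁ → ∃ X : Set ℝ, #X = ℵ₁ ∧ StronglySurjective X ∧
      ∃ g : ℝ → ℝ, StrictMonoOn g A ∧ Set.MapsTo g A X := by
  refine ⟨?_, fun A hA => main hMA A hA⟩
  obtain ⟨X, h1, h2, -⟩ := main hMA ∅ (by simp)
  refine ⟨X, fun hc => ?_, h2⟩
  have := (Cardinal.le_aleph0_iff_set_countable).2 hc
  rw [h1] at this
  exact absurd this (not_le.2 Cardinal.aleph0_lt_aleph_one)

end Pool.Agent.Results.MP_841ff5_lc.MartinReal
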